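import Pool.Agent.TH676.R.Stm

set_option autoImplicit false

/-! R2: no circuits with less than `q` edges in a minimal minor. -/

namespace Pool.Agent.TH676.R

open Finset Pool.Agent.H753R2.FR

namespace Circx

variable {V I : Type} [DecidableEq V] [DecidableEq I] [Fintype V] [Fintype I] (G : MG V I)

theorem sup_shift (r : Setoid V) (e : I) (A : Finset I) :
    r ⊔ pr (G.x e) (G.y e) ⊔ conn G A = r ⊔ conn G (insert e A) := by
  rw [conn_insert, sup_assoc, sup_comm (pr (G.x e) (G.y e)) (conn G A)]

/-- deletion of the edges of a set `C` costs at most the factor `(1+p)` for each edge -/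
theorem le_contract {q : ℝ} (hq : 1 < q) (C : Finset I) :
    ∀ (r : Setoid V) (S : Finset I), Disjoint C S →
      (∀ A, A ⊆ C → ∀ S', S' ⊆ C ∪ S → 0 ≤ m G q (r ⊔ conn G A) S') →
      m G q r (C ∪ S) ≤ (1 + 1 / (q - 1)) ^ C.card * m G q (r ⊔ conn G C) S := by
  have hp : 0 < 1 / (q - 1) := by
    have : 0 < q - 1 := by linarith
    positivity
  induction C using Finset.induction_on with
  | empty =>
    intro r S _ _
    rw [empty_union, conn_empty, sup_bot_eq]
    simp
  | insert e C he ih =>
    intro r S hd hn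
    rw [disjoint_insert_left] at hd
    have heS : e ∉ C ∪ S := by
      rw [mem_union]; tauto
    rw [insert_union, m_insert G q heS, card_insert_of_notMem he]
    have h1 : 0 ≤ m G q r (C ∪ S) := by
      have h0 := hn ∅ (empty_subset _) (C ∪ S) (by rw [insert_union]; exact subset_insert _ _)
      rwa [conn_empty, sup_bot_eq] at h0
    have h2 := ih (r ⊔ pr (G.x e) (G.y e)) S hd.2 (fun A hA S' hS => by
      rw [sup_shift]
      exact hn _ (insert_subset_insert e hA) S'
        (hS.trans (by rw [insert_union]; exact subset_insert _ _)))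
    rw [sup_shift] at h2
    have h4 : 0 ≤ 1 / (q - 1) * m G q r (C ∪ S) := mul_nonneg hp.le h1
    calc (1 + 1 / (q - 1)) * m G q (r ⊔ pr (G.x e) (G.y e)) (C ∪ S) - 1 / (q - 1) * m G q r (C ∪ S)
        ≤ (1 + 1 / (q - 1)) * m G q (r ⊔ pr (G.x e) (G.y e)) (C ∪ S) := by linarith
      _ ≤ (1 + 1 / (q - 1)) * ((1 + 1 / (q - 1)) ^ C.card * m G q (r ⊔ conn G (insert e C)) S) :=
          mul_le_mul_of_nonneg_left h2 (by linarith)
      _ = _ := by rw [pow_succ]; ring

/-- the circuit inequality -/
theorem circ_lower {q : ℝ} (hq : 1 < q) (C : Finset I) (hC : C.Nonempty) :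
    ∀ (r : Setoid V) (S : Finset I), Disjoint C S →
      (∀ e ∈ C, (r ⊔ conn G (C.erase e)) (G.x e) (G.y e)) →
      (∀ A, A ⊆ C → ∀ S', S' ⊂ C ∪ S → 0 ≤ m G q (r ⊔ conn G A) S') →
      (1 + 1 / (q - 1)) ^ (C.card - 1) * (1 - (C.card - 1 : ℝ) * (1 / (q - 1))) *
        m G q (r ⊔ conn G C) S ≤ m G q r (C ∪ S) := by
  have hp : 0 < 1 / (q - 1) := by
    have : 0 < q - 1 := by linarith
    positivity
  induction hC using Finset.Nonempty.cons_induction with
  | singleton e =>
    intro r S hd hcirc _
    have h1 := hcirc e (mem_singleton_self e)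
    rw [erase_singleton, conn_empty, sup_bot_eq] at h1
    have h2 : conn G {e} = pr (G.x e) (G.y e) := by
      have := conn_insert G e ∅
      rw [conn_empty, bot_sup_eq] at this
      simpa using this
    have h3 : r ⊔ conn G {e} = r := by
      rw [h2]; exact sup_eq_left.mpr (pr_le_iff.mpr h1)
    rw [h3, union_comm, m_loops G q r (S := {e}) (O := S) (by
      intro e' he'
      rw [mem_singleton] at he'
      rw [he']; exact h1)]
    simp
  | cons e C he hC ih =>
    intro r S hd hcirc hn
    rw [cons_eq_insert] at *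
    rw [disjoint_insert_left] at hd
    have heS : e ∉ C ∪ S := by
      rw [mem_union]; tauto
    have hss : C ∪ S ⊂ insert e C ∪ S := by
      rw [insert_union]; exact ssubset_insert heS
    have hcard : (insert e C).card = C.card + 1 := card_insert_of_notMem he
    have hCpos : 1 ≤ C.card := hC.card_pos
    -- upper bound for the deletion
    have hup := le_contract G hq C r S hd.2 (fun A hA S' hS =>
      hn A (hA.trans (subset_insert _ _)) S' (hS.trans_ssubset hss))
    have h1 : r ⊔ conn G C = r ⊔ conn G (insert e C) := by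
      have h2 := hcirc e (mem_insert_self e C)
      rw [erase_insert he] at h2
      rw [conn_insert, ← sup_assoc]
      exact (sup_eq_left.mpr (pr_le_iff.mpr h2)).symm
    rw [h1] at hup
    -- lower bound for the contraction
    have hlow := ih (r ⊔ pr (G.x e) (G.y e)) S hd.2 (by
      intro f hf
      have h2 := hcirc f (mem_insert_of_mem hf)
      have hfe : e ≠ f := fun h => he (h ▸ hf)
      rw [erase_insert_of_ne hfe] at h2
      rw [sup_shift]; exact h2)
      (fun A hA S' hS => by
        rw [sup_shift]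
        exact hn _ (insert_subset_insert e hA) S' (hS.trans hss))
    rw [sup_shift] at hlow
    rw [insert_union, m_insert G q heS, hcard]
    set p := 1 / (q - 1) with hpdef
    set T := m G q (r ⊔ conn G (insert e C)) S with hT
    have h4 : (1 + p) * ((1 + p) ^ (C.card - 1) * (1 - (C.card - 1 : ℝ) * p) * T) -
        p * ((1 + p) ^ C.card * T) =
        (1 + p) ^ (C.card + 1 - 1) * (1 - ((C.card + 1 : ℕ) - 1 : ℝ) * p) * T := by
      have h5 : (1 + p) ^ C.card = (1 + p) ^ (C.card - 1) * (1 + p) := by
        rw [← pow_succ]; congr 1; omega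
      rw [Nat.add_sub_cancel, h5]
      push_cast
      ring
    rw [← h4]
    have h6 := mul_le_mul_of_nonneg_left hlow (by linarith : (0 : ℝ) ≤ 1 + p)
    have h7 := mul_le_mul_of_nonneg_left hup hp.le
    linarith

end Circx

theorem circR : St_circR := by
  intro V I _ _ _ _ G q r S hq2 hmin C hC hCS hCq hcirc
  have hq : 1 < q := by linarith
  have hu : C ∪ (S \ C) = S := Finset.union_sdiff_of_subset hCS
  have h1 := Circx.circ_lower G hq C hC r (S \ C) disjoint_sdiff hcirc (by
    intro A hA S' hS
    rw [hu] at hS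
    exact hmin.nn A S' (hA.trans hCS) hS.subset (Or.inl hS.ne))
  rw [hu] at h1
  have h2 : m G q (r ⊔ conn G C) (S \ C) = m G q (r ⊔ conn G C) S := by
    have h3 := m_loops G q (r ⊔ conn G C) (S := C) (O := S \ C) (fun e he =>
      (conn_le_iff G).1 le_sup_right e he)
    rw [union_comm, hu] at h3
    exact h3.symm
  rw [h2] at h1
  have hT := hmin.pos C hCS hC
  have hq1 : 0 < q - 1 := by linarith
  have h3 : 0 < 1 - ((C.card : ℝ) - 1) * (1 / (q - 1)) := by
    rw [mul_one_div, sub_pos, div_lt_one hq1]; linarith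
  have h4 : 0 < (1 + 1 / (q - 1)) ^ (C.card - 1) := by positivity
  have h5 := lt_of_lt_of_le (mul_pos (mul_pos h4 h3) hT) h1
  linarith [hmin.neg]

end Pool.Agent.TH676.R
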