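import Pool.Agent.TH676.R.Stm

set_option autoImplicit false
set_option linter.unusedSectionVars false

/-! # R3: in a minimal minor the number of edges leaving the class of a vertex is at least three -/

namespace Pool.Agent.TH676.R

open Finset Pool.Agent.H753R2.FR

namespace Degx

variable {V I : Type} [DecidableEq V] [DecidableEq I] [Fintype V] [Fintype I]

/-- the two sides of the class of `v` -/
def side (r : Setoid V) (v : V) : Setoid V where
  r a b := (r a v ↔ r b v)
  iseqv := ⟨fun _ => Iff.rfl, fun h => h.symm, fun h h' => h.trans h'⟩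

theorem le_side (r : Setoid V) (v : V) : r ≤ side r v := by
  intro a b h
  exact ⟨fun h' => r.trans (r.symm h) h', fun h' => r.trans h h'⟩

theorem mem_star (G : MG V I) (r : Setoid V) (S : Finset I) (v : V) (e : I) :
    e ∈ star G r S v ↔ e ∈ S ∧ ¬ (r (G.x e) v ↔ r (G.y e) v) := by
  classical
  unfold star
  simp only [Finset.mem_filter]

theorem conn_side (G : MG V I) (r : Setoid V) (S A : Finset I) (v : V) (hA : A ⊆ S)
    (hd : Disjoint A (star G r S v)) : r ⊔ conn G A ≤ side r v := by
  refine sup_le (le_side r v) ?_
  rw [conn_le_iff]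
  intro e he
  by_contra hcon
  exact Finset.disjoint_left.1 hd he ((mem_star G r S v e).2 ⟨hA he, hcon⟩)

theorem not_conn (G : MG V I) (r : Setoid V) (S A : Finset I) (v : V) (hA : A ⊆ S)
    (hd : Disjoint A (star G r S v)) {e : I} (he : e ∈ star G r S v) :
    ¬ (r ⊔ conn G A) (G.x e) (G.y e) := by
  intro h
  exact ((mem_star G r S v e).1 he).2 (conn_side G r S A v hA hd h)

end Degx

open Degx in
theorem degR : St_degR := by
  intro V I _ _ _ _ G q r S hq hM v hne
  by_contra hcon
  have hle : (star G r S v).card ≤ 2 := by omega
  have hpos : 0 < (star G r S v).card := hne.card_pos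
  have hsub : star G r S v ⊆ S := fun e he => ((mem_star G r S v e).1 he).1
  rcases Nat.lt_or_ge (star G r S v).card 2 with hlt | hge
  · have h1 : (star G r S v).card = 1 := by omega
    obtain ⟨e, he⟩ := Finset.card_eq_one.1 h1
    have heK : e ∈ star G r S v := by rw [he]; exact Finset.mem_singleton_self e
    refine not_conn G r S (S.erase e) v (Finset.erase_subset _ _) ?_ heK (hM.bl e (hsub heK))
    rw [he, Finset.disjoint_singleton_right]
    exact Finset.notMem_erase _ _
  · have h2 : (star G r S v).card = 2 := by omega
    obtain ⟨e1, e2, hne12, he⟩ := Finset.card_eq_two.1 h2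
    have h1K : e1 ∈ star G r S v := by
      rw [he]; exact Finset.mem_insert_self _ _
    have h2K : e2 ∈ star G r S v := by
      rw [he]; exact Finset.mem_insert_of_mem (Finset.mem_singleton_self _)
    have h1S := hsub h1K
    have h2S := hsub h2K
    have hU2 : S = insert e1 (S.erase e1) := (Finset.insert_erase h1S).symm
    have hU : S.erase e1 = insert e2 ((S.erase e1).erase e2) := by
      rw [Finset.insert_erase]
      rw [Finset.mem_erase]
      exact ⟨hne12.symm, h2S⟩
    have k1 : m G q r S = (1 + 1 / (q - 1)) * m G q (r ⊔ pr (G.x e1) (G.y e1)) (S.erase e1)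
        - 1 / (q - 1) * m G q r (S.erase e1) := by
      conv_lhs => rw [hU2]
      rw [m_insert G q (Finset.notMem_erase e1 S)]
    have k2 : m G q r (S.erase e1) = 0 := by
      rw [hU]
      apply m_bridge G q (by linarith) (Finset.notMem_erase _ _)
      refine not_conn G r S _ v ?_ ?_ h2K
      · exact (Finset.erase_subset _ _).trans (Finset.erase_subset _ _)
      · rw [he, Finset.disjoint_left]
        intro x hx hx2
        rw [Finset.mem_insert, Finset.mem_singleton] at hx2
        rw [Finset.mem_erase, Finset.mem_erase] at hx
        rcases hx2 with h3 | h3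
        · exact hx.2.1 h3
        · exact hx.1 h3
    have k3 : m G q (r ⊔ pr (G.x e1) (G.y e1)) S
        = m G q (r ⊔ pr (G.x e1) (G.y e1)) (S.erase e1) := by
      have := m_loops G q (S := {e1}) (O := S.erase e1) (r ⊔ pr (G.x e1) (G.y e1)) (by
        intro x hx
        rw [Finset.mem_singleton] at hx
        subst hx
        exact pr_le_iff.1 le_sup_right)
      rw [← this]
      congr 1
      rw [Finset.union_comm, ← Finset.insert_eq, Finset.insert_erase h1S]
    have k4 := hM.pos {e1} (Finset.singleton_subset_iff.2 h1S) (Finset.singleton_nonempty _)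
    have k5 : conn G {e1} = pr (G.x e1) (G.y e1) := by
      unfold conn
      exact Finset.sup_singleton
    rw [k5, k3] at k4
    have hG := hM.neg
    rw [k1, k2, mul_zero, sub_zero] at hG
    have hp0 : 0 < 1 / (q - 1) := by apply div_pos one_pos; linarith
    have : 0 < (1 + 1 / (q - 1)) * m G q (r ⊔ pr (G.x e1) (G.y e1)) (S.erase e1) :=
      mul_pos (by linarith) k4
    linarith

end Pool.Agent.TH676.R
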