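import Pool.Agent.TH676.R.Stm

/-! R6: the graph lemma for girth six and bags of at most five vertices. -/

set_option autoImplicit false
set_option linter.unusedSectionVars false

namespace Pool.Agent.TH676.R

open Finset Pool.Agent.TH676.Z

namespace Graph4x

variable {V : Type} [DecidableEq V]

theorem five {R : Finset V} (hR : R.card ≤ 4) {a b c d e : V} (ha : a ∈ R) (hb : b ∈ R)
    (hc : c ∈ R) (hd : d ∈ R) (he : e ∈ R) (h1 : a ≠ b) (h2 : a ≠ c) (h3 : a ≠ d) (h4 : a ≠ e)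
    (h5 : b ≠ c) (h6 : b ≠ d) (h7 : b ≠ e) (h8 : c ≠ d) (h9 : c ≠ e) (h10 : d ≠ e) : False := by
  have h : ({a, b, c, d, e} : Finset V) ⊆ R := by
    intro x hx
    simp only [Finset.mem_insert, Finset.mem_singleton] at hx
    rcases hx with rfl | rfl | rfl | rfl | rfl <;> assumption
  have hc5 : ({a, b, c, d, e} : Finset V).card = 5 := by
    rw [Finset.card_insert_of_notMem, Finset.card_insert_of_notMem, Finset.card_insert_of_notMem,
      Finset.card_insert_of_notMem, Finset.card_singleton] <;>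
      simp only [Finset.mem_insert, Finset.mem_singleton, not_or] <;> tauto
  have := Finset.card_le_card h
  omega

/-- `b` is `a` or a neighbour of `a` -/
def Rp (Ad : V → V → Prop) (a b : V) : Prop := b = a ∨ Ad a b

theorem rp_ne {Ad : V → V → Prop} (gi : G6 Ad) {r a b a' b' : V} (ha : Ad r a) (hb : Ad r b)
    (hab : a ≠ b) (ha' : a' ≠ r) (h1 : Rp Ad a a') (h2 : Rp Ad b b') : a' ≠ b' := by
  intro h
  rw [← h] at h2
  rcases h1 with h1 | h1
  · rw [← h1] at ha hab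
    rcases h2 with h2 | h2
    · exact hab h2
    · exact gi.c3 r b a' hb h2 (gi.symm ha)
  · rcases h2 with h2 | h2
    · rw [← h2] at hb
      exact gi.c3 r a a' ha h1 (gi.symm hb)
    · exact gi.c4 r a a' b ha h1 (gi.symm h2) (gi.symm hb) ha'.symm hab

theorem oth1 {Ad : V → V → Prop} (h3 : Three Ad) {x r : V} (y : V) (h : Ad x r) :
    ∃ a, Ad x a ∧ a ≠ r ∧ a ≠ y := by
  obtain ⟨a, b, c, ha, hb, hc, hab, hac, hbc⟩ := h3 x r h
  by_cases h1 : a = r ∨ a = y
  · by_cases h2 : b = r ∨ b = y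
    · refine ⟨c, hc, ?_, ?_⟩
      · rintro rfl
        rcases h1 with h1 | h1
        · exact hac h1
        · rcases h2 with h2 | h2
          · exact hbc h2
          · exact hab (h1.trans h2.symm)
      · rintro rfl
        rcases h1 with h1 | h1
        · rcases h2 with h2 | h2
          · exact hab (h1.trans h2.symm)
          · exact hbc h2
        · exact hac h1
    · push Not at h2
      exact ⟨b, hb, h2.1, h2.2⟩
  · push Not at h1
    exact ⟨a, ha, h1.1, h1.2⟩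

theorem oth2 {Ad : V → V → Prop} (h3 : Three Ad) {x r : V} (h : Ad x r) :
    ∃ a b, Ad x a ∧ Ad x b ∧ a ≠ r ∧ b ≠ r ∧ a ≠ b := by
  obtain ⟨a, ha, har, -⟩ := oth1 h3 r h
  obtain ⟨b, hb, hbr, hba⟩ := oth1 h3 a h
  exact ⟨a, b, ha, hb, har, hbr, hba.symm⟩

/-- single piece -/
def Sg (Ad : V → V → Prop) (In : Finset V → Prop) (U : Finset V) (x : V) : Prop :=
  ∃ Z, In Z ∧ Z ⊆ U ∧ ∀ n, Ad x n → n ∈ Z

/-- double piece -/
def Db (Ad : V → V → Prop) (In : Finset V → Prop) (U : Finset V) (x y : V) : Prop :=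
  y ∉ U ∧ Ad x y ∧ ∃ Z, In Z ∧ Z ⊆ U ∧ (∀ n, Ad x n → n = y ∨ n ∈ Z) ∧
    (∀ n, Ad y n → n = x ∨ n ∈ Z)

/-- the invariant -/
def Iv (Ad : V → V → Prop) (In : Finset V → Prop) (U : Finset V) : Prop :=
  ∀ x, x ∉ U → (∃ y, Ad x y) → Sg Ad In U x ∨ ∃ y, Db Ad In U x y

theorem step {Ad : V → V → Prop} {In : Finset V → Prop} (gi : G6 Ad) (h3 : Three Ad)
    (hB : Bags Ad 5 In) {U W : Finset V} {r : V} (hW : In W) (hrW : r ∈ W)
    (hZ : ∀ Z, In Z → Z ⊆ U → r ∈ Z → Z ⊆ W) (hr : r ∈ U) (hinv : Iv Ad In U) :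
    Iv Ad In (U.erase r) := by
  have hR : (W.erase r).card ≤ 4 := by
    have := hB.card W hW
    rw [Finset.card_erase_of_mem hrW]
    omega
  have hinR : ∀ Z, In Z → Z ⊆ U → r ∈ Z → ∀ n ∈ Z, n ≠ r → n ∈ W.erase r :=
    fun Z h1 h2 h4 n hn hnr => Finset.mem_erase.2 ⟨hnr, hZ Z h1 h2 h4 hn⟩
  have hne : ∀ n, Ad r n → n ≠ r := by
    intro n h h'
    rw [h'] at h
    exact gi.c2 _ h
  have hU : ∀ n, Ad r n → n ∈ U → n ∈ W.erase r := by
    intro n hn hnU
    refine hinR {r, n} (hB.edge r n hn) ?_ (by simp) n (by simp) (hne n hn)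
    intro z hz
    simp only [Finset.mem_insert, Finset.mem_singleton] at hz
    rcases hz with rfl | rfl <;> assumption
  have contrib : ∀ a, Ad r a → ∃ a', a' ∈ W.erase r ∧ Rp Ad a a' := by
    intro a ha
    by_cases haU : a ∈ U
    · exact ⟨a, hU a ha haU, Or.inl rfl⟩
    · rcases hinv a haU ⟨r, gi.symm ha⟩ with ⟨Z, h1, h2, h4⟩ | ⟨y, hyU, hay, Z, h1, h2, h4, h5⟩
      · obtain ⟨a', ha', har, -⟩ := oth1 h3 r (gi.symm ha)
        exact ⟨a', hinR Z h1 h2 (h4 r (gi.symm ha)) a' (h4 a' ha') har, Or.inr ha'⟩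
      · obtain ⟨a', ha', har, hay'⟩ := oth1 h3 y (gi.symm ha)
        have hrZ : r ∈ Z := (h4 r (gi.symm ha)).resolve_left (fun h => hyU (h ▸ hr))
        exact ⟨a', hinR Z h1 h2 hrZ a' ((h4 a' ha').resolve_left hay') har, Or.inr ha'⟩
  have noD : ∀ n y, Ad r n → n ∉ U → ¬ Db Ad In U n y := by
    rintro n y hn hnU ⟨hyU, hny, Z, h1, h2, h4, h5⟩
    have hry : r ≠ y := fun h => hyU (h ▸ hr)
    have hrZ : r ∈ Z := (h4 r (gi.symm hn)).resolve_left hry
    obtain ⟨p, hp, hpr, hpy⟩ := oth1 h3 y (gi.symm hn)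
    have hpR := hinR Z h1 h2 hrZ p ((h4 p hp).resolve_left hpy) hpr
    obtain ⟨q1, q2, hq1, hq2, hq1n, hq2n, hq⟩ := oth2 h3 (gi.symm hny)
    have hyr : ∀ q, Ad y q → q ≠ r := by
      intro q hq' h
      rw [h] at hq'
      exact gi.c3 r n y hn hny hq'
    have hq1R := hinR Z h1 h2 hrZ q1 ((h5 q1 hq1).resolve_left hq1n) (hyr q1 hq1)
    have hq2R := hinR Z h1 h2 hrZ q2 ((h5 q2 hq2).resolve_left hq2n) (hyr q2 hq2)
    obtain ⟨a, b, ha, hb, han, hbn, hab⟩ := oth2 h3 hn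
    obtain ⟨a', ha', haa⟩ := contrib a ha
    obtain ⟨b', hb', hbb⟩ := contrib b hb
    have hpq : ∀ q, Ad y q → p ≠ q := by
      intro q hq' h
      rw [← h] at hq'
      exact gi.c3 n p y hp (gi.symm hq') (gi.symm hny)
    have haq : ∀ c c' q, Ad r c → c ≠ n → Rp Ad c c' → Ad y q → c' ≠ q := by
      intro c c' q hc hcn hcc hq' h
      rw [← h] at hq'
      rcases hcc with h' | hcc
      · rw [h'] at hq'
        exact gi.c4 r n y c hn hny hq' (gi.symm hc) hry hcn.symm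
      · exact gi.c5 r n y c' c hn hny hq' (gi.symm hcc) (gi.symm hc)
    exact five hR hpR hq1R hq2R ha' hb' (hpq q1 hq1) (hpq q2 hq2)
      (rp_ne gi hn ha han.symm hpr (Or.inr hp) haa) (rp_ne gi hn hb hbn.symm hpr (Or.inr hp) hbb) hq
      (haq a a' q1 ha han haa hq1).symm (haq b b' q1 hb hbn hbb hq1).symm
      (haq a a' q2 ha han haa hq2).symm (haq b b' q2 hb hbn hbb hq2).symm
      (rp_ne gi ha hb hab (Finset.mem_erase.1 ha').1 haa hbb)
  have uniq : ∀ n1 n2, Ad r n1 → Ad r n2 → n1 ∉ U → n2 ∉ U → n1 = n2 := by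
    intro n1 n2 hn1 hn2 h1U h2U
    by_contra hne12
    have two : ∀ n, Ad r n → n ∉ U → ∃ p1 p2, p1 ∈ W.erase r ∧ p2 ∈ W.erase r ∧ Ad n p1 ∧
        Ad n p2 ∧ p1 ≠ p2 := by
      intro n hn hnU
      rcases hinv n hnU ⟨r, gi.symm hn⟩ with ⟨Z, h1, h2, h4⟩ | ⟨y, hD⟩
      · obtain ⟨p1, p2, hp1, hp2, hp1r, hp2r, hp⟩ := oth2 h3 (gi.symm hn)
        exact ⟨p1, p2, hinR Z h1 h2 (h4 r (gi.symm hn)) p1 (h4 p1 hp1) hp1r,
          hinR Z h1 h2 (h4 r (gi.symm hn)) p2 (h4 p2 hp2) hp2r, hp1, hp2, hp⟩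
      · exact absurd hD (noD n y hn hnU)
    obtain ⟨p1, p2, hp1, hp2, ap1, ap2, hp⟩ := two n1 hn1 h1U
    obtain ⟨q1, q2, hq1, hq2, aq1, aq2, hq⟩ := two n2 hn2 h2U
    obtain ⟨c, hc, hc1, hc2⟩ := oth1 h3 n2 hn1
    obtain ⟨c', hc', hcc⟩ := contrib c hc
    have k : ∀ z, z ∈ W.erase r → z ≠ r := fun z h => (Finset.mem_erase.1 h).1
    exact five hR hp1 hp2 hq1 hq2 hc' hp
      (rp_ne gi hn1 hn2 hne12 (k _ hp1) (Or.inr ap1) (Or.inr aq1))
      (rp_ne gi hn1 hn2 hne12 (k _ hp1) (Or.inr ap1) (Or.inr aq2))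
      (rp_ne gi hn1 hc hc1.symm (k _ hp1) (Or.inr ap1) hcc)
      (rp_ne gi hn1 hn2 hne12 (k _ hp2) (Or.inr ap2) (Or.inr aq1))
      (rp_ne gi hn1 hn2 hne12 (k _ hp2) (Or.inr ap2) (Or.inr aq2))
      (rp_ne gi hn1 hc hc1.symm (k _ hp2) (Or.inr ap2) hcc)
      hq
      (rp_ne gi hn2 hc hc2.symm (k _ hq1) (Or.inr aq1) hcc)
      (rp_ne gi hn2 hc hc2.symm (k _ hq2) (Or.inr aq2) hcc)
  obtain ⟨Z0, hZ0⟩ : ∃ Z0, Z0 = (W ∩ U).erase r := ⟨_, rfl⟩
  have hZ0In : In Z0 := hB.mono _ W (by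
    rw [hZ0]; exact (Finset.erase_subset _ _).trans Finset.inter_subset_left) hW
  have hZ0U : Z0 ⊆ U.erase r := by
    rw [hZ0]; exact Finset.erase_subset_erase r Finset.inter_subset_right
  have hmem : ∀ z, z ∈ W.erase r → z ∈ U → z ∈ Z0 := by
    intro z hz hzU
    rw [hZ0, Finset.mem_erase, Finset.mem_inter]
    exact ⟨(Finset.mem_erase.1 hz).1, (Finset.mem_erase.1 hz).2, hzU⟩
  intro x hx hxy
  by_cases hxr : x = r
  · rw [hxr]
    by_cases hel : ∃ w, Ad r w ∧ w ∉ U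
    · obtain ⟨w, hw, hwU⟩ := hel
      right
      refine ⟨w, fun h => hwU (Finset.mem_of_mem_erase h), hw, Z0, hZ0In, hZ0U, ?_, ?_⟩
      · intro n hn
        by_cases hnU : n ∈ U
        · exact Or.inr (hmem n (hU n hn hnU) hnU)
        · exact Or.inl (uniq n w hn hw hnU hwU)
      · intro n hn
        by_cases hnr : n = r
        · exact Or.inl hnr
        right
        rcases hinv w hwU ⟨r, gi.symm hw⟩ with ⟨Z, h1, h2, h4⟩ | ⟨y, hD⟩
        · exact hmem n (hinR Z h1 h2 (h4 r (gi.symm hw)) n (h4 n hn) hnr) (h2 (h4 n hn))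
        · exact absurd hD (noD w y hw hwU)
    · push Not at hel
      left
      exact ⟨Z0, hZ0In, hZ0U, fun n hn => hmem n (hU n hn (hel n hn)) (hel n hn)⟩
  · have hxU : x ∉ U := fun h => hx (Finset.mem_erase.2 ⟨hxr, h⟩)
    rcases hinv x hxU hxy with ⟨Z, h1, h2, h4⟩ | ⟨y, hyU, hxy', Z, h1, h2, h4, h5⟩
    · by_cases hrZ : r ∈ Z
      · by_cases hxa : Ad x r
        · right
          refine ⟨r, by simp, hxa, Z0, hZ0In, hZ0U, ?_, ?_⟩
          · intro n hn
            by_cases hnr : n = r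
            · exact Or.inl hnr
            · exact Or.inr (hmem n (hinR Z h1 h2 hrZ n (h4 n hn) hnr) (h2 (h4 n hn)))
          · intro n hn
            by_cases hnU : n ∈ U
            · exact Or.inr (hmem n (hU n hn hnU) hnU)
            · exact Or.inl (uniq n x hn (gi.symm hxa) hnU hxU)
        · left
          refine ⟨Z.erase r, hB.mono _ Z (Finset.erase_subset _ _) h1,
            Finset.erase_subset_erase r h2, ?_⟩
          intro n hn
          refine Finset.mem_erase.2 ⟨?_, h4 n hn⟩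
          intro h
          rw [h] at hn
          exact hxa hn
      · left
        refine ⟨Z, h1, fun z hz => Finset.mem_erase.2 ⟨?_, h2 hz⟩, h4⟩
        intro h
        rw [h] at hz
        exact hrZ hz
    · right
      by_cases hrZ : r ∈ Z
      · have hxa : ¬ Ad x r := fun h => noD x y (gi.symm h) hxU ⟨hyU, hxy', Z, h1, h2, h4, h5⟩
        have hya : ¬ Ad y r := fun h =>
          noD y x (gi.symm h) hyU ⟨hxU, gi.symm hxy', Z, h1, h2, h5, h4⟩
        refine ⟨y, fun h => hyU (Finset.mem_of_mem_erase h), hxy', Z.erase r,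
          hB.mono _ Z (Finset.erase_subset _ _) h1, Finset.erase_subset_erase r h2, ?_, ?_⟩
        · intro n hn
          rcases h4 n hn with h | h
          · exact Or.inl h
          · refine Or.inr (Finset.mem_erase.2 ⟨?_, h⟩)
            intro h'
            rw [h'] at hn
            exact hxa hn
        · intro n hn
          rcases h5 n hn with h | h
          · exact Or.inl h
          · refine Or.inr (Finset.mem_erase.2 ⟨?_, h⟩)
            intro h'
            rw [h'] at hn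
            exact hya hn
      · refine ⟨y, fun h => hyU (Finset.mem_of_mem_erase h), hxy', Z, h1,
          fun z hz => Finset.mem_erase.2 ⟨?_, h2 hz⟩, h4, h5⟩
        intro h
        rw [h] at hz
        exact hrZ hz

end Graph4x

open Graph4x in
theorem graph4 : St_graph4 := by
  intro V _ _ Ad In gi h3 hB x y hxy
  have main : ∀ n : ℕ, ∀ U : Finset V, U.card = n → (∀ x ∈ U, In {x}) → Iv Ad In U →
      Iv Ad In ∅ := by
    intro n
    induction n with
    | zero =>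
      intro U hU _ hinv
      rw [Finset.card_eq_zero] at hU
      rw [← hU]
      exact hinv
    | succ n ih =>
      intro U hU hin hinv
      have hne : U.Nonempty := Finset.card_pos.1 (by omega)
      obtain ⟨r, hr, W, hW, hrW, hZ⟩ := hB.elim U hne hin
      refine ih (U.erase r) ?_ ?_ (step gi h3 hB hW hrW hZ hr hinv)
      · rw [Finset.card_erase_of_mem hr]
        omega
      · intro x hx
        exact hin x (Finset.mem_of_mem_erase hx)
  classical
  have hfin : Iv Ad In ∅ := by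
    refine main _ (univ.filter (fun x => ∃ y, Ad x y)) rfl ?_ ?_
    · intro x hx
      rw [Finset.mem_filter] at hx
      obtain ⟨-, y, hy⟩ := hx
      exact hB.mono {x} {x, y} (by simp) (hB.edge x y hy)
    · intro x hx hy
      exact absurd (Finset.mem_filter.2 ⟨Finset.mem_univ x, hy⟩) hx
  rcases hfin x (by simp) ⟨y, hxy⟩ with ⟨Z, -, h2, h4⟩ | ⟨w, -, -, Z, -, h2, h4, -⟩
  · have := h2 (h4 y hxy)
    simp at this
  · obtain ⟨a, b, ha, hb, -, -, hab⟩ := oth2 h3 hxy
    have e : ∀ n, Ad x n → n = w := by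
      intro n hn
      rcases h4 n hn with h | h
      · exact h
      · have := h2 h
        simp at this
    exact hab ((e a ha).trans (e b hb).symm)

end Pool.Agent.TH676.R
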