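import Pool.Agent.TH676.Z.Stm
import Pool.Agent.TH497.TW.Flow
import Pool.Agent.H753R2.FR.T_E1

set_option autoImplicit false
set_option linter.unusedSectionVars false

/-! # Real flow roots of graphs of treewidth at most six: definitions and statements

For real `q > 6` the minors of `G` which are minimal with nonpositive flow polynomial have girth at
least seven and minimum degree at least three, so the treewidth is at least seven.  For `q > 5` the
girth is at least six and the treewidth is at least five. -/

namespace Pool.Agent.TH676.R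

open Finset Pool.Agent.H753R2.FR Pool.Agent.TH676.Z Pool.Agent.TH497.TW

section

variable {V I : Type} [DecidableEq V] [DecidableEq I] [Fintype V] [Fintype I]

/-- the minor with the vertices glued along `r` and with the edges `S` is bridgeless, has a
nonpositive flow polynomial at `q`, no loops, and its proper minors do not have negative flow
polynomials -/
structure MinR (G : MG V I) (q : ℝ) (r : Setoid V) (S : Finset I) : Prop where
  bl : ∀ e ∈ S, (r ⊔ conn G (S.erase e)) (G.x e) (G.y e)
  neg : m G q r S ≤ 0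
  nl : ∀ e ∈ S, ¬ r (G.x e) (G.y e)
  nn : ∀ A S', A ⊆ S → S' ⊆ S → (S' ≠ S ∨ A.Nonempty) → 0 ≤ m G q (r ⊔ conn G A) S'
  pos : ∀ A, A ⊆ S → A.Nonempty → 0 < m G q (r ⊔ conn G A) S

/-- the minor `(r, S)` is represented by the graph `s, d` on the same vertex set (edges which are
not in `S` are loops), which has a tree decomposition with bags of at most `w` vertices -/
structure Rep (w : ℕ) (G : MG V I) (r : Setoid V) (S : Finset I) (φ : V → V) (s d : I → V) :
    Prop where
  td : HasTD w s d
  rel : ∀ a b, φ a = φ b ↔ r a b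
  idem : ∀ a, φ (φ a) = φ a
  ed : ∀ e ∈ S, s e = φ (G.x e) ∧ d e = φ (G.y e)
  lo : ∀ e, e ∉ S → s e = d e

open Classical in
/-- the edges of `S` with exactly one end in the class of `v` -/
noncomputable def star (G : MG V I) (r : Setoid V) (S : Finset I) (v : V) : Finset I :=
  S.filter (fun e => ¬ (r (G.x e) v ↔ r (G.y e) v))

end

/-- R1: a minimal minor -/
def St_min : Prop := ∀ (V I : Type) [DecidableEq V] [DecidableEq I] [Fintype V] [Fintype I]
  (G : MG V I) (q : ℝ) (w : ℕ), 2 < q → HasTD w G.x G.y → Bridgeless G → m G q ⊥ univ ≤ 0 →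
    ∃ (r : Setoid V) (S : Finset I) (φ : V → V) (s d : I → V), Rep w G r S φ s d ∧ MinR G q r S

/-- R2: no circuits with less than `q` edges -/
def St_circR : Prop := ∀ (V I : Type) [DecidableEq V] [DecidableEq I] [Fintype V] [Fintype I]
  (G : MG V I) (q : ℝ) (r : Setoid V) (S : Finset I), 2 < q → MinR G q r S →
    ∀ C : Finset I, C.Nonempty → C ⊆ S → (C.card : ℝ) < q →
      ¬ ∀ e ∈ C, (r ⊔ conn G (C.erase e)) (G.x e) (G.y e)

/-- R3: the degrees are at least three -/
def St_degR : Prop := ∀ (V I : Type) [DecidableEq V] [DecidableEq I] [Fintype V] [Fintype I]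
  (G : MG V I) (q : ℝ) (r : Setoid V) (S : Finset I), 2 < q → MinR G q r S →
    ∀ v : V, (star G r S v).Nonempty → 3 ≤ (star G r S v).card

/-- R4: the circuits of the representing graph -/
def St_walk : Prop := ∀ (V I : Type) [DecidableEq V] [DecidableEq I] [Fintype V] [Fintype I]
  (G : MG V I) (r : Setoid V) (S : Finset I) (φ : V → V) (s d : I → V) (w : ℕ),
    Rep w G r S φ s d → ∀ (k : ℕ) (v : Fin (k + 2) → V) (ed : Fin (k + 2) → I),
      Function.Injective v → Function.Injective ed → (∀ i, Jn s d (ed i) (v i) (v (i + 1))) →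
      univ.image ed ⊆ S ∧ (univ.image ed).card = k + 2 ∧
        ∀ e ∈ univ.image ed, (r ⊔ conn G ((univ.image ed).erase e)) (G.x e) (G.y e)

/-- no circuits with at most `n` edges -/
def NC {V E : Type} (n : ℕ) (src dst : E → V) : Prop :=
  ∀ k : ℕ, k + 2 ≤ n → ∀ (v : Fin (k + 2) → V) (ed : Fin (k + 2) → E),
    Function.Injective v → Function.Injective ed →
    (∀ i, Jn src dst (ed i) (v i) (v (i + 1))) → False

/-- girth at least six -/
structure G6 {V : Type} (Ad : V → V → Prop) : Prop where
  symm : ∀ {a b}, Ad a b → Ad b a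
  c2 : ∀ a, ¬ Ad a a
  c3 : ∀ a b c, Ad a b → Ad b c → Ad c a → False
  c4 : ∀ a b c d, Ad a b → Ad b c → Ad c d → Ad d a → a ≠ c → b ≠ d → False
  c5 : ∀ a b c d e, Ad a b → Ad b c → Ad c d → Ad d e → Ad e a → False

/-- R5: girth seven -/
def St_gi6 : Prop := ∀ (V E : Type) [Fintype V] [DecidableEq V] [Fintype E] [DecidableEq E]
  (src dst : E → V), NC 6 src dst → Gi (Adj src dst)

/-- R5: girth six -/
def St_gi5 : Prop := ∀ (V E : Type) [Fintype V] [DecidableEq V] [Fintype E] [DecidableEq E]
  (src dst : E → V), NC 5 src dst → G6 (Adj src dst)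

/-- R5: three neighbours -/
def St_three' : Prop := ∀ (V E : Type) [Fintype V] [DecidableEq V] [Fintype E] [DecidableEq E]
  (src dst : E → V), NC 2 src dst →
    (∀ x, Nis src dst x →
      3 ≤ (univ.filter (fun e => src e ≠ dst e ∧ (src e = x ∨ dst e = x))).card) →
    Three (Adj src dst)

/-- R6: the graph lemma for girth six -/
def St_graph4 : Prop := ∀ (V : Type) [Fintype V] [DecidableEq V] (Ad : V → V → Prop)
  (In : Finset V → Prop), G6 Ad → Three Ad → Bags Ad 5 In → ∀ x y, ¬ Ad x y

end Pool.Agent.TH676.R
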